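import Pool.Agent.H317.GH.Stm
import Pool.Graph.R_pool_sql_team_seeded_620a6dc7.Helper864_WL.Burnside

/-!
# Project GH (helper317), BUR: Burnside's theorem in terms of the trace form
-/

set_option autoImplicit false

namespace Pool.Agent.H385.GH

open Matrix Pool.Agent.H317.GR Pool.Agent.H317.GH

theorem bur : S_BUR := by
  classical
  intro K _ _ G _ n τ hirr X hX
  rcases Nat.eq_zero_or_pos n with rfl | hn
  · exact Matrix.ext fun i => i.elim0
  have hspan := Pool.Agent.Helper864WL.burnside τ (fun W hW => hirr W fun g v hv => hW g v hv) hn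
  have hall : ∀ Y : Matrix (Fin n) (Fin n) K, (X * Y).trace = 0 := by
    intro Y
    have hY : Y ∈ Submodule.span K (Set.range fun g => (τ g : Matrix (Fin n) (Fin n) K)) := by
      rw [hspan]
      exact Submodule.mem_top
    induction hY using Submodule.span_induction with
    | mem y hy =>
      obtain ⟨g, rfl⟩ := hy
      exact hX g
    | zero => rw [mul_zero, Matrix.trace_zero]
    | add y z _ _ h1 h2 => rw [mul_add, Matrix.trace_add, h1, h2, add_zero]
    | smul c y _ h1 => rw [mul_smul_comm, Matrix.trace_smul, h1, smul_zero]
  refine Matrix.ext fun i j => ?_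
  have h1 := hall (Matrix.single j i 1)
  rw [Matrix.trace_mul_single] at h1
  simpa using h1

end Pool.Agent.H385.GH
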